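import Pool.Agent.helper92.VC.Spec

/-!
# MP_dc9173_lc: row vc:PBD (polynomially bounded sequences)
-/

set_option autoImplicit false

universe u

namespace Pool.Agent.helper92.VC

theorem PBD_to {a : ℕ → ℕ} (h : PolyBdd a) : ∃ C e : ℕ, ∀ n, a n ≤ C * (n + 1) ^ e := by
  obtain ⟨c, hc⟩ := h
  refine ⟨c + 1, c, fun n => (hc n).trans ?_⟩
  have h1 : n ^ c ≤ (n + 1) ^ c := Nat.pow_le_pow_left (Nat.le_succ n) c
  have h2 : 1 ≤ (n + 1) ^ c := Nat.one_le_pow _ _ (Nat.succ_pos n)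
  nlinarith

theorem PBD_of {a : ℕ → ℕ} {C e : ℕ} (h : ∀ n, a n ≤ C * (n + 1) ^ e) : PolyBdd a := by
  refine ⟨C * 2 ^ e + 2 * e + C, fun n => (h n).trans ?_⟩
  rcases n with _ | _ | n
  · rw [zero_add, one_pow, mul_one]
    exact le_trans (by omega) (Nat.le_add_left _ _)
  · have h1 : (0 + 1 + 1 : ℕ) = 2 := rfl
    rw [h1]
    exact le_trans (by omega) (Nat.le_add_left _ _)
  · have h1 : C ≤ (n + 1 + 1) ^ C := by
      refine (Nat.lt_two_pow_self).le.trans ?_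
      exact Nat.pow_le_pow_left (by omega) C
    have h2 : (n + 1 + 1 + 1) ^ e ≤ (n + 1 + 1) ^ (2 * e) := by
      rw [pow_mul]
      refine Nat.pow_le_pow_left ?_ e
      nlinarith
    have h3 : C * (n + 1 + 1 + 1) ^ e ≤ (n + 1 + 1) ^ (C * 2 ^ e + 2 * e + C) := by
      calc C * (n + 1 + 1 + 1) ^ e ≤ (n + 1 + 1) ^ C * (n + 1 + 1) ^ (2 * e) :=
            Nat.mul_le_mul h1 h2
        _ = (n + 1 + 1) ^ (C + 2 * e) := (pow_add _ _ _).symm
        _ ≤ (n + 1 + 1) ^ (C * 2 ^ e + 2 * e + C) :=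
            Nat.pow_le_pow_right (by omega) (by omega)
    omega

theorem PBD : PBD_stmt := by
  refine ⟨fun c => ⟨c, fun n => Nat.le_add_left _ _⟩, ?_, ?_, ?_, ?_⟩
  · rintro a b hab ⟨c, hc⟩
    exact ⟨c, fun n => (hab n).trans (hc n)⟩
  · intro a b ha hb
    obtain ⟨C, e, h1⟩ := PBD_to ha
    obtain ⟨D, f, h2⟩ := PBD_to hb
    refine PBD_of (C := C + D) (e := e + f) fun n => ?_
    have h3 : (n + 1) ^ e ≤ (n + 1) ^ (e + f) := Nat.pow_le_pow_right (Nat.succ_pos n) (by omega)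
    have h4 : (n + 1) ^ f ≤ (n + 1) ^ (e + f) := Nat.pow_le_pow_right (Nat.succ_pos n) (by omega)
    calc a n + b n ≤ C * (n + 1) ^ e + D * (n + 1) ^ f := Nat.add_le_add (h1 n) (h2 n)
      _ ≤ C * (n + 1) ^ (e + f) + D * (n + 1) ^ (e + f) :=
          Nat.add_le_add (Nat.mul_le_mul le_rfl h3) (Nat.mul_le_mul le_rfl h4)
      _ = (C + D) * (n + 1) ^ (e + f) := (add_mul _ _ _).symm
  · intro a b ha hb
    obtain ⟨C, e, h1⟩ := PBD_to ha
    obtain ⟨D, f, h2⟩ := PBD_to hb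
    refine PBD_of (C := C * D) (e := e + f) fun n => ?_
    calc a n * b n ≤ (C * (n + 1) ^ e) * (D * (n + 1) ^ f) := Nat.mul_le_mul (h1 n) (h2 n)
      _ = C * D * (n + 1) ^ (e + f) := by rw [pow_add]; ring
  · intro a c ha
    obtain ⟨C, e, h1⟩ := PBD_to ha
    refine PBD_of (C := C ^ c) (e := e * c) fun n => ?_
    calc a n ^ c ≤ (C * (n + 1) ^ e) ^ c := Nat.pow_le_pow_left (h1 n) c
      _ = C ^ c * (n + 1) ^ (e * c) := by rw [mul_pow, ← pow_mul]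

end Pool.Agent.helper92.VC
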